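import Mathlib
import Pool.Agent.Helper948.Conj.Final

set_option autoImplicit false

namespace Pool.Agent.Results.MP_60077b_lc.ConjugacyUndecidable

open Pool.Agent.Helper948.Conj

/-! ## Definitions used in the statement

Words over the alphabet `A = {0, …, k-1}` are lists with entries in `Fin k`, sets of words are
Mathlib's `Language (Fin k)`, and the product `L * M` of languages is Mathlib's
`{u ++ v | u ∈ L, v ∈ M}`. -/

/-- The finite set of words given by an explicit list. -/
def lang {k : ℕ} (X : List (List (Fin k))) : Language (Fin k) := {w | w ∈ X}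

/-- The finite sets `X`, `Y` are conjugate: `X Z = Z Y` for some nonempty set `Z ⊆ A*`
(finite or infinite). -/
def Conjugate {k : ℕ} (X Y : List (List (Fin k))) : Prop :=
  ∃ Z : Language (Fin k), (∃ z, z ∈ Z) ∧ lang X * Z = Z * lang Y

/-- The inequality `X Z ⊆ Z Y` has a nonempty solution `Z ⊆ A*`. -/
def SemiConjugate {k : ℕ} (X Y : List (List (Fin k))) : Prop :=
  ∃ Z : Language (Fin k), (∃ z, z ∈ Z) ∧ lang X * Z ≤ Z * lang Y

/-- The input read by an algorithm: the size `k` of the alphabet and the two lists of words, as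
lists of lists of natural numbers. -/
def code {k : ℕ} (X Y : List (List (Fin k))) : ℕ × List (List ℕ) × List (List ℕ) :=
  (k, X.map (List.map Fin.val), Y.map (List.map Fin.val))

/-! ## Transfer to words over `Fin k` -/

theorem lift_word {k : ℕ} (w : List ℕ) (h : ∀ a ∈ w, a < k) :
    ∃ w' : List (Fin k), w'.map Fin.val = w := by
  induction w with
  | nil => exact ⟨[], rfl⟩
  | cons a w ih =>
    obtain ⟨w', hw'⟩ := ih (fun b hb => h b (by simp [hb]))
    exact ⟨⟨a, h a (by simp)⟩ :: w', by simp [hw']⟩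

theorem lift_list {k : ℕ} (L : List (List ℕ)) (h : ∀ w ∈ L, ∀ a ∈ w, a < k) :
    ∃ L' : List (List (Fin k)), L'.map (List.map Fin.val) = L := by
  induction L with
  | nil => exact ⟨[], rfl⟩
  | cons w L ih =>
    obtain ⟨L', hL'⟩ := ih (fun v hv => h v (by simp [hv]))
    obtain ⟨w', hw'⟩ := lift_word w (h w (by simp))
    exact ⟨w' :: L', by simp [hw', hL']⟩

theorem val_inj {k : ℕ} {u v : List (Fin k)} (h : u.map Fin.val = v.map Fin.val) : u = v :=
  List.map_injective_iff.2 Fin.val_injective h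

/-- The reduction, for words over `Fin k`. -/
theorem reduction' : ∃ (P : ℕ → Prop) (k : ℕ → ℕ) (X Y : (n : ℕ) → List (List (Fin (k n)))),
    ¬ ComputablePred P ∧ (Computable fun n => code (X n) (Y n)) ∧
    (∀ n, [] ∉ X n ∧ [] ∉ Y n) ∧ (∀ n, P n → Conjugate (X n) (Y n)) ∧
    (∀ n, SemiConjugate (X n) (Y n) → P n) := by
  obtain ⟨k, X, Y, P, hk, hX, hY, hP, hX1, hY1, h1, h2⟩ := reduction
  choose X' hX' using fun n => lift_list (k := k n) (X n) (fun w hw => (hX1 n w hw).2)
  choose Y' hY' using fun n => lift_list (k := k n) (Y n) (fun w hw => (hY1 n w hw).2)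
  refine ⟨P, k, X', Y', hP, ?_, ?_, ?_, ?_⟩
  · have : (fun n => code (X' n) (Y' n)) = fun n => (k n, X n, Y n) := by
      funext n
      simp only [code, hX', hY']
    rw [this]
    exact hk.pair (hX.pair hY)
  · intro n
    constructor
    · intro h
      refine (hX1 n [] ?_).1 rfl
      rw [← hX']
      exact List.mem_map.2 ⟨[], h, rfl⟩
    · intro h
      refine (hY1 n [] ?_).1 rfl
      rw [← hY']
      exact List.mem_map.2 ⟨[], h, rfl⟩
  · intro n hn
    obtain ⟨Z, ⟨z0, hz0⟩, hZ1, hZ2⟩ := h1 n hn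
    obtain ⟨Z', hZ'⟩ : ∃ Z' : Language (Fin (k n)), ∀ z, z ∈ Z' ↔ z.map Fin.val ∈ Z :=
      ⟨{z | z.map Fin.val ∈ Z}, fun _ => Iff.rfl⟩
    refine ⟨Z', ?_, ?_⟩
    · obtain ⟨z', hz'⟩ := lift_word z0 (hZ1 z0 hz0)
      refine ⟨z', ?_⟩
      rw [hZ', hz']
      exact hz0
    · ext w
      rw [Language.mem_mul, Language.mem_mul]
      constructor
      · rintro ⟨x, hx, z, hz, rfl⟩
        rw [hZ'] at hz
        have hm : (x ++ z).map Fin.val ∈ {w | ∃ x ∈ X n, ∃ z ∈ Z, w = x ++ z} := by
          refine ⟨x.map Fin.val, ?_, z.map Fin.val, hz, List.map_append⟩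
          rw [← hX']
          exact List.mem_map.2 ⟨x, hx, rfl⟩
        rw [hZ2] at hm
        obtain ⟨z1, hz1, y, hy, he⟩ := hm
        rw [← hY', List.mem_map] at hy
        obtain ⟨y', hy', rfl⟩ := hy
        obtain ⟨z1', rfl⟩ := lift_word z1 (hZ1 z1 hz1)
        rw [← List.map_append] at he
        exact ⟨z1', (hZ' _).2 hz1, y', hy', (val_inj he).symm⟩
      · rintro ⟨z, hz, y, hy, rfl⟩
        rw [hZ'] at hz
        have hm : (z ++ y).map Fin.val ∈ {w | ∃ z ∈ Z, ∃ y ∈ Y n, w = z ++ y} := by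
          refine ⟨z.map Fin.val, hz, y.map Fin.val, ?_, List.map_append⟩
          rw [← hY']
          exact List.mem_map.2 ⟨y, hy, rfl⟩
        rw [← hZ2] at hm
        obtain ⟨x, hx, z1, hz1, he⟩ := hm
        rw [← hX', List.mem_map] at hx
        obtain ⟨x', hx', rfl⟩ := hx
        obtain ⟨z1', rfl⟩ := lift_word z1 (hZ1 z1 hz1)
        rw [← List.map_append] at he
        exact ⟨x', hx', z1', (hZ' _).2 hz1, (val_inj he).symm⟩
  · rintro n ⟨Z, ⟨z0, hz0⟩, hZ⟩
    by_contra hn
    refine h2 n hn {z | ∃ z' ∈ Z, z = z'.map Fin.val} ⟨z0.map Fin.val, z0, hz0, rfl⟩ ?_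
    rintro x hx _ ⟨z', hz', rfl⟩
    rw [← hX', List.mem_map] at hx
    obtain ⟨x', hx', rfl⟩ := hx
    have hm : x' ++ z' ∈ lang (X' n) * Z := Language.append_mem_mul hx' hz'
    obtain ⟨z1, hz1, y, hy, he⟩ := Language.mem_mul.1 (hZ hm)
    refine ⟨z1.map Fin.val, ⟨z1, hz1, rfl⟩, y.map Fin.val, ?_, ?_⟩
    · rw [← hY']
      exact List.mem_map.2 ⟨y, hy, rfl⟩
    · rw [← List.map_append, ← he, List.map_append]

/-- There is no algorithm which, given an alphabet and two finite sets `X`, `Y` of nonempty words,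
decides whether `X` and `Y` are conjugate (that is, whether `X Z = Z Y` for some nonempty,
possibly infinite, set `Z` of words); and the same holds for the inequality `X Z ⊆ Z Y`. -/
theorem result :
    (¬ ∃ f : ℕ × List (List ℕ) × List (List ℕ) → Bool, Computable f ∧
      ∀ (k : ℕ) (X Y : List (List (Fin k))), [] ∉ X → [] ∉ Y →
        (f (code X Y) = true ↔ Conjugate X Y)) ∧
    (¬ ∃ f : ℕ × List (List ℕ) × List (List ℕ) → Bool, Computable f ∧
      ∀ (k : ℕ) (X Y : List (List (Fin k))), [] ∉ X → [] ∉ Y →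
        (f (code X Y) = true ↔ SemiConjugate X Y)) := by
  obtain ⟨P, k, X, Y, hP, hc, hne, h1, h2⟩ := reduction'
  have hsc : ∀ n, Conjugate (X n) (Y n) → SemiConjugate (X n) (Y n) := by
    rintro n ⟨Z, hZ1, hZ2⟩
    exact ⟨Z, hZ1, hZ2.le⟩
  have key : ∀ f : ℕ × List (List ℕ) × List (List ℕ) → Bool, Computable f →
      (∀ n, f (code (X n) (Y n)) = true ↔ P n) → False := by
    intro f hf h
    apply hP
    have h3 : ComputablePred fun n => f (code (X n) (Y n)) = true := by
      refine ⟨inferInstance, ?_⟩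
      refine (hf.comp hc).of_eq ?_
      intro n
      simp
    exact h3.of_eq h
  constructor
  · rintro ⟨f, hf, h⟩
    refine key f hf (fun n => ?_)
    rw [h _ _ _ (hne n).1 (hne n).2]
    exact ⟨fun h' => h2 n (hsc n h'), h1 n⟩
  · rintro ⟨f, hf, h⟩
    refine key f hf (fun n => ?_)
    rw [h _ _ _ (hne n).1 (hne n).2]
    exact ⟨h2 n, fun h' => hsc n (h1 n h')⟩

end Pool.Agent.Results.MP_60077b_lc.ConjugacyUndecidable
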